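import Pool.Agent.Y84.PG.F

set_option autoImplicit false
set_option linter.unusedSectionVars false

/-! Polynomial families of approximately idempotent matrices over a normed algebra with a trace:
constancy of the trace, and vanishing of the coefficients. The algebra is given by a list of data. -/

namespace Pool.Agent.Y84.PC

open Polynomial Matrix Pool.Agent.Y84.PT

/-- Data: an algebra `U` over the ultrametric field `F` and the algebra `B` of polynomial families of
elements of `U`. `NU`, `NB`: the norm is at most; `ND`: the degree is at most; `D`: derivative; `T`,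
`T₀`: traces; `ev`: evaluation; `cc`: constants. -/
structure FamData (F : Type*) [NormedField F] (U B : Type*) [Ring U] [Ring B] [Algebra F U]
    [Algebra F[X] B] where
  /-- bound for the norm -/
  NU : U → ℝ → Prop
  /-- bound for the norm -/
  NB : B → ℝ → Prop
  /-- bound for the degree -/
  ND : B → ℕ → Prop
  /-- derivative -/
  D : B → B
  /-- trace -/
  T : B →+ F[X]
  /-- trace -/
  T₀ : U →+ F
  /-- evaluation -/
  ev : F → B →+* U
  /-- constants -/
  cc : U →+* B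
  nb_mono : ∀ {b : B} {P P' : ℝ}, NB b P → P ≤ P' → NB b P'
  nb_zero : ∀ {P : ℝ}, 0 ≤ P → NB 0 P
  nb_one : NB 1 1
  nb_add : ∀ {b b' : B} {P : ℝ}, NB b P → NB b' P → NB (b + b') P
  nb_sub : ∀ {b b' : B} {P : ℝ}, NB b P → NB b' P → NB (b - b') P
  nb_mul : ∀ {b b' : B} {P P' : ℝ}, NB b P → NB b' P' → 0 ≤ P → 0 ≤ P' → NB (b * b') (P * P')
  nb_smul : ∀ {f : F[X]} {b : B} {P P' : ℝ}, Bd f P → NB b P' → NB (f • b) (P * P')
  nb_D : ∀ {b : B} {P : ℝ}, NB b P → NB (D b) P
  nb_T : ∀ {b : B} {P : ℝ}, NB b P → 0 ≤ P → Bd (T b) P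
  nb_cc : ∀ {u : U} {P : ℝ}, NU u P → NB (cc u) P
  nd_mono : ∀ {b : B} {d d' : ℕ}, ND b d → d ≤ d' → ND b d'
  nd_zero : ND 0 0
  nd_one : ND 1 0
  nd_add : ∀ {b b' : B} {d : ℕ}, ND b d → ND b' d → ND (b + b') d
  nd_sub : ∀ {b b' : B} {d : ℕ}, ND b d → ND b' d → ND (b - b') d
  nd_mul : ∀ {b b' : B} {d d' : ℕ}, ND b d → ND b' d' → ND (b * b') (d + d')
  nd_smul : ∀ {f : F[X]} {b : B} {d d' : ℕ}, f.natDegree ≤ d → ND b d' → ND (f • b) (d + d')
  nd_cc : ∀ u : U, ND (cc u) 0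
  nd_T : ∀ {b : B} {d : ℕ}, ND b d → (T b).natDegree ≤ d
  D_add : ∀ b b' : B, D (b + b') = D b + D b'
  D_sub : ∀ b b' : B, D (b - b') = D b - D b'
  D_zero : D 0 = 0
  D_mul : ∀ b b' : B, D (b * b') = D b * b' + b * D b'
  T_comm : ∀ b b' : B, T (b * b') = T (b' * b)
  T_D : ∀ b : B, T (D b) = Polynomial.derivative (T b)
  ev_T : ∀ (w : F) (b : B), T₀ (ev w b) = (T b).eval w
  ev_cc : ∀ (w : F) (u : U), ev w (cc u) = u
  ev_smul : ∀ (w : F) (f : F[X]) (b : B), ev w (f • b) = f.eval w • ev w b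
  T₀_smul : ∀ (r : F) (u : U), T₀ (r • u) = r * T₀ u

variable {F : Type*} [NormedField F] {U B : Type*} [Ring U] [Ring B] [Algebra F U]
  [Algebra F[X] B] (S : FamData F U B)

namespace FamData

theorem nb_sum {ι : Type*} {s : Finset ι} {f : ι → B} {P : ℝ} (hP : 0 ≤ P)
    (h : ∀ i ∈ s, S.NB (f i) P) : S.NB (∑ i ∈ s, f i) P := by
  classical
  induction s using Finset.induction_on with
  | empty => simpa using S.nb_zero hP
  | insert a s ha ih =>
    rw [Finset.sum_insert ha]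
    exact S.nb_add (h a (Finset.mem_insert_self _ _))
      (ih (fun i hi => h i (Finset.mem_insert_of_mem hi)))

theorem nd_sum {ι : Type*} {s : Finset ι} {f : ι → B} {d : ℕ}
    (h : ∀ i ∈ s, S.ND (f i) d) : S.ND (∑ i ∈ s, f i) d := by
  classical
  induction s using Finset.induction_on with
  | empty => simpa using S.nd_mono S.nd_zero (Nat.zero_le d)
  | insert a s ha ih =>
    rw [Finset.sum_insert ha]
    exact S.nd_add (h a (Finset.mem_insert_self _ _))
      (ih (fun i hi => h i (Finset.mem_insert_of_mem hi)))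

theorem D_sum {ι : Type*} (s : Finset ι) (f : ι → B) :
    S.D (∑ i ∈ s, f i) = ∑ i ∈ s, S.D (f i) := by
  classical
  induction s using Finset.induction_on with
  | empty => simpa using S.D_zero
  | insert a s ha ih => rw [Finset.sum_insert ha, Finset.sum_insert ha, S.D_add, ih]

variable {ι : Type*} [Fintype ι] [DecidableEq ι]

/-- matrices -/
def MB (E : Matrix ι ι B) (P : ℝ) : Prop := ∀ i j, S.NB (E i j) P

/-- matrices -/
def MD (E : Matrix ι ι B) (d : ℕ) : Prop := ∀ i j, S.ND (E i j) d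

/-- the trace on matrices -/
noncomputable def tr (E : Matrix ι ι B) : F[X] := ∑ i, S.T (E i i)

/-- the trace on matrices -/
noncomputable def tr₀ (E : Matrix ι ι U) : F := ∑ i, S.T₀ (E i i)

theorem tr_add (E E' : Matrix ι ι B) : S.tr (E + E') = S.tr E + S.tr E' := by
  unfold tr
  simp [Finset.sum_add_distrib]

theorem tr_comm (E E' : Matrix ι ι B) : S.tr (E * E') = S.tr (E' * E) := by
  unfold tr
  simp only [Matrix.mul_apply, map_sum]
  rw [Finset.sum_comm]
  refine Finset.sum_congr rfl (fun i _ => Finset.sum_congr rfl (fun j _ => ?_))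
  exact S.T_comm _ _

theorem mb_mono {E : Matrix ι ι B} {P P' : ℝ} (h : S.MB E P) (hP : P ≤ P') : S.MB E P' :=
  fun i j => S.nb_mono (h i j) hP

theorem mb_add {E E' : Matrix ι ι B} {P : ℝ} (h : S.MB E P) (h' : S.MB E' P) : S.MB (E + E') P :=
  fun i j => S.nb_add (h i j) (h' i j)

theorem mb_sub {E E' : Matrix ι ι B} {P : ℝ} (h : S.MB E P) (h' : S.MB E' P) : S.MB (E - E') P :=
  fun i j => S.nb_sub (h i j) (h' i j)

theorem mb_mul {E E' : Matrix ι ι B} {P P' : ℝ} (h : S.MB E P) (h' : S.MB E' P') (hP : 0 ≤ P)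
    (hP' : 0 ≤ P') : S.MB (E * E') (P * P') := by
  intro i j
  rw [Matrix.mul_apply]
  exact S.nb_sum (mul_nonneg hP hP') (fun k _ => S.nb_mul (h i k) (h' k j) hP hP')

theorem mb_one : S.MB (1 : Matrix ι ι B) 1 := by
  intro i j
  rw [Matrix.one_apply]
  split_ifs
  · exact S.nb_one
  · exact S.nb_zero zero_le_one

theorem mb_tr [IsUltrametricDist F] {E : Matrix ι ι B} {P : ℝ} (h : S.MB E P) (hP : 0 ≤ P) :
    Bd (S.tr E) P :=
  Bd.sum hP (fun i _ => S.nb_T (h i i) hP)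

theorem md_mono {E : Matrix ι ι B} {d d' : ℕ} (h : S.MD E d) (hd : d ≤ d') : S.MD E d' :=
  fun i j => S.nd_mono (h i j) hd

theorem md_add {E E' : Matrix ι ι B} {d : ℕ} (h : S.MD E d) (h' : S.MD E' d) : S.MD (E + E') d :=
  fun i j => S.nd_add (h i j) (h' i j)

theorem md_sub {E E' : Matrix ι ι B} {d : ℕ} (h : S.MD E d) (h' : S.MD E' d) : S.MD (E - E') d :=
  fun i j => S.nd_sub (h i j) (h' i j)

theorem md_mul {E E' : Matrix ι ι B} {d d' : ℕ} (h : S.MD E d) (h' : S.MD E' d') :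
    S.MD (E * E') (d + d') := by
  intro i j
  rw [Matrix.mul_apply]
  exact S.nd_sum (fun k _ => S.nd_mul (h i k) (h' k j))

theorem md_one : S.MD (1 : Matrix ι ι B) 0 := by
  intro i j
  rw [Matrix.one_apply]
  split_ifs
  · exact S.nd_one
  · exact S.nd_zero

theorem md_st {E : Matrix ι ι B} {d : ℕ} (hE : S.MD E d) : S.MD (st E) (3 * d) := by
  have h1 : S.MD (df E) (d + d) := by
    unfold df
    exact S.md_sub (S.md_mul hE hE) (S.md_mono hE (by omega))
  have h2 : S.MD (E + E - 1) d :=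
    S.md_sub (S.md_add hE hE) (S.md_mono S.md_one (Nat.zero_le d))
  unfold Pool.Agent.Y84.PT.st
  exact S.md_sub (S.md_mono hE (by omega)) (S.md_mono (S.md_mul h1 h2) (by omega))

theorem md_iter {E : Matrix ι ι B} {d : ℕ} (hE : S.MD E d) (N : ℕ) :
    S.MD (Pool.Agent.Y84.PT.st^[N] E) (3 ^ N * d) := by
  induction N with
  | zero => simpa using hE
  | succ N ih =>
    rw [Function.iterate_succ_apply', pow_succ']
    have := S.md_st ih
    refine S.md_mono this ?_
    rw [mul_assoc]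

theorem md_tr {E : Matrix ι ι B} {d : ℕ} (hE : S.MD E d) : (S.tr E).natDegree ≤ d :=
  natDegree_sum_le_of_forall_le _ _ (fun i _ => S.nd_T (hE i i))

/-- entrywise derivative -/
def dm (E : Matrix ι ι B) : Matrix ι ι B := E.map S.D

theorem dm_mul (E E' : Matrix ι ι B) : S.dm (E * E') = S.dm E * E' + E * S.dm E' := by
  ext1 i j
  simp only [dm, Matrix.map_apply, Matrix.mul_apply, Matrix.add_apply, S.D_sum,
    S.D_mul, Finset.sum_add_distrib]

theorem dm_sub (E E' : Matrix ι ι B) : S.dm (E - E') = S.dm E - S.dm E' := by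
  ext1 i j
  simp [dm, S.D_sub]

theorem mb_dm {E : Matrix ι ι B} {P : ℝ} (h : S.MB E P) : S.MB (S.dm E) P :=
  fun i j => S.nb_D (h i j)

theorem derivative_tr (E : Matrix ι ι B) : Polynomial.derivative (S.tr E) = S.tr (S.dm E) := by
  unfold tr
  rw [map_sum]
  exact Finset.sum_congr rfl (fun i _ => (S.T_D (E i i)).symm)

/-- the derivative of the trace in terms of the defect -/
theorem tr_dm (E : Matrix ι ι B) :
    S.tr (S.dm E) = S.tr (E * S.dm (df E)) + S.tr (E * S.dm (df E))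
      - (S.tr (df E * S.dm E) + S.tr (df E * S.dm E) + S.tr (df E * S.dm E)
        + S.tr (df E * S.dm E)) - S.tr (S.dm (df E)) := by
  set D := S.dm E with hD
  set a := df E with ha
  set b := S.dm a with hb
  have h0 : a = E * E - E := rfl
  have h1 : D * E + E * D = D + b := by
    rw [hb, h0, S.dm_sub, S.dm_mul, ← hD]; abel
  have t1 : S.tr (D * E) = S.tr (E * D) := S.tr_comm _ _
  have h2 : S.tr (E * D) + S.tr (E * D) = S.tr D + S.tr b := by
    have := congrArg S.tr h1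
    rw [S.tr_add, S.tr_add, t1] at this
    exact this
  have h3 : E * D * E + E * E * D = E * D + E * b := by
    have := congrArg (fun Z => E * Z) h1
    simp only [mul_add, ← mul_assoc] at this
    exact this
  have h4 : E * E = a + E := by rw [h0]; abel
  have h5 : S.tr (E * D * E) = S.tr (E * E * D) := by
    rw [S.tr_comm (E * D) E, mul_assoc]
  have h6 : S.tr (E * E * D) = S.tr (a * D) + S.tr (E * D) := by
    rw [h4, add_mul, S.tr_add]
  have h7 : S.tr (E * E * D) + S.tr (E * E * D) = S.tr (E * D) + S.tr (E * b) := by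
    have := congrArg S.tr h3
    rw [S.tr_add, S.tr_add, h5] at this
    exact this
  rw [h6] at h7
  linear_combination (-1 : F[X]) * h2 + 2 * h7

theorem step_bd {E : Matrix ι ι B} {P ε : ℝ} (hP : 1 ≤ P) (hε : ε ≤ 1)
    (hE : S.MB E P) (hd : S.MB (df E) ε) (hε0 : 0 ≤ ε) :
    S.MB (st E) P ∧ S.MB (df (st E)) (ε * ε) := by
  have hP0 : 0 ≤ P := zero_le_one.trans hP
  constructor
  · unfold st
    refine S.mb_sub hE ?_
    have h1 : S.MB (E + E - 1) P := S.mb_sub (S.mb_add hE hE) (S.mb_mono S.mb_one hP)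
    refine S.mb_mono (S.mb_mul hd h1 hε0 hP0) ?_
    calc ε * P ≤ 1 * P := mul_le_mul_of_nonneg_right hε hP0
      _ = P := one_mul P
  · rw [df_st]
    have h1 : S.MB (df E + df E + df E + df E - 1 - 1 - 1) 1 := by
      have h2 : S.MB (df E) 1 := S.mb_mono hd hε
      exact S.mb_sub (S.mb_sub (S.mb_sub (S.mb_add (S.mb_add (S.mb_add h2 h2) h2) h2) S.mb_one)
        S.mb_one) S.mb_one
    have h3 := S.mb_mul (S.mb_mul hd hd hε0 hε0) h1 (mul_nonneg hε0 hε0) zero_le_one
    simpa using h3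

theorem iter_bd {E : Matrix ι ι B} {P ε : ℝ} (hP : 1 ≤ P) (hε : ε ≤ 1)
    (hE : S.MB E P) (hd : S.MB (df E) ε) (hε0 : 0 ≤ ε) (N : ℕ) :
    S.MB (Pool.Agent.Y84.PT.st^[N] E) P ∧ S.MB (df (Pool.Agent.Y84.PT.st^[N] E)) (ε ^ 2 ^ N) := by
  induction N with
  | zero => exact ⟨hE, by simpa using hd⟩
  | succ N ih =>
    rw [Function.iterate_succ_apply']
    have h := S.step_bd hP (pow_le_one₀ hε0 hε) ih.1 ih.2 (pow_nonneg hε0 _)
    refine ⟨h.1, ?_⟩
    have h2 := h.2
    rw [← pow_add, ← two_mul, ← pow_succ'] at h2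
    exact h2

theorem deriv_tr_bd [IsUltrametricDist F] {E : Matrix ι ι B} {P ε : ℝ}
    (hP : 1 ≤ P) (hE : S.MB E P) (hd : S.MB (df E) ε) (hε0 : 0 ≤ ε) :
    Bd (Polynomial.derivative (S.tr E)) (P * ε) := by
  have hP0 : 0 ≤ P := zero_le_one.trans hP
  have hPe : 0 ≤ P * ε := mul_nonneg hP0 hε0
  rw [S.derivative_tr, S.tr_dm]
  have h1 : Bd (S.tr (E * S.dm (df E))) (P * ε) :=
    S.mb_tr (S.mb_mul hE (S.mb_dm hd) hP0 hε0) hPe
  have h2 : Bd (S.tr (df E * S.dm E)) (P * ε) := by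
    have := S.mb_tr (S.mb_mul hd (S.mb_dm hE) hε0 hP0) (mul_nonneg hε0 hP0)
    rw [mul_comm] at this
    exact this
  have h3 : Bd (S.tr (S.dm (df E))) (P * ε) := by
    refine (S.mb_tr (S.mb_dm hd) hε0).mono ?_
    calc ε = 1 * ε := (one_mul ε).symm
      _ ≤ P * ε := mul_le_mul_of_nonneg_right hP hε0
  exact ((h1.add h1).sub (((h2.add h2).add h2).add h2)).sub h3

/-- evaluation of matrices -/
noncomputable def evm (w : F) : Matrix ι ι B →+* Matrix ι ι U := (S.ev w).mapMatrix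

theorem tr_evm (w : F) (E : Matrix ι ι B) : S.tr₀ (S.evm w E) = (S.tr E).eval w := by
  unfold tr tr₀ evm
  rw [eval_finsetSum]
  exact Finset.sum_congr rfl (fun i _ => S.ev_T w (E i i))

/-- constancy of the trace -/
theorem trace_eq [IsUltrametricDist F] (hnat : ∀ n : ℕ, n ≠ 0 → (1 : ℝ) / n ≤ ‖(n : F)‖)
    {E : Matrix ι ι B} {P ε : ℝ} {d : ℕ} (hP : 1 ≤ P) (hε : ε < 1)
    (hE : S.MB E P) (hd : S.MB (df E) ε) (hdeg : S.MD E d) (hε0 : 0 ≤ ε)
    {u v : F} (hu : ‖u‖ ≤ 1) (hv : ‖v‖ ≤ 1)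
    (hEu : S.evm u E * S.evm u E = S.evm u E) (hEv : S.evm v E * S.evm v E = S.evm v E) :
    S.tr₀ (S.evm u E) = S.tr₀ (S.evm v E) := by
  classical
  have hP0 : 0 ≤ P := zero_le_one.trans hP
  have hev : ∀ (w : F), S.evm w E * S.evm w E = S.evm w E → ∀ N : ℕ,
      (S.tr (Pool.Agent.Y84.PT.st^[N] E)).eval w = S.tr₀ (S.evm w E) := by
    intro w hw N
    have h1 : ∀ N : ℕ, S.evm w (Pool.Agent.Y84.PT.st^[N] E) = S.evm w E := by
      intro N
      induction N with
      | zero => rfl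
      | succ N ih =>
        rw [Function.iterate_succ_apply', map_st, ih, st_of_idem hw]
    rw [← h1 N, S.tr_evm]
  have key : ∀ N : ℕ, ‖S.tr₀ (S.evm u E) - S.tr₀ (S.evm v E)‖ ≤
      (P * d) * (((2 : ℝ) ^ N) ^ 2 * ε ^ 2 ^ N) := by
    intro N
    rw [← hev u hEu N, ← hev v hEv N]
    obtain ⟨h1, h2⟩ := S.iter_bd hP hε.le hE hd hε0 N
    have h3 := S.deriv_tr_bd hP h1 h2 (pow_nonneg hε0 _)
    have h4 := S.md_tr (S.md_iter hdeg N)
    have hBn : 0 ≤ (P * d) * (((2 : ℝ) ^ N) ^ 2 * ε ^ 2 ^ N) := by positivity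
    apply eval_sub_le hBn _ hu hv
    intro i hi
    rcases Nat.lt_or_ge (3 ^ N * d) i with hlt | hle
    · have : (S.tr (Pool.Agent.Y84.PT.st^[N] E)).coeff i = 0 :=
        coeff_eq_zero_of_natDegree_lt (h4.trans_lt hlt)
      rw [this, norm_zero]; exact hBn
    · obtain ⟨j, rfl⟩ : ∃ j, i = j + 1 := ⟨i - 1, by omega⟩
      have h5 := h3 j
      rw [coeff_derivative, norm_mul] at h5
      have h6 := hnat (j + 1) (by omega)
      have hj : (0 : ℝ) < ((j + 1 : ℕ) : ℝ) := by positivity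
      have h7 : ‖((j : F) + 1)‖ = ‖(((j + 1 : ℕ) : F))‖ := by push_cast; rfl
      rw [h7] at h5
      have h8 : ‖(S.tr (Pool.Agent.Y84.PT.st^[N] E)).coeff (j + 1)‖ * (1 / ((j + 1 : ℕ) : ℝ)) ≤
          P * ε ^ 2 ^ N :=
        (mul_le_mul_of_nonneg_left h6 (norm_nonneg _)).trans h5
      rw [mul_one_div, div_le_iff₀ hj] at h8
      refine h8.trans ?_
      have h9 : (((j + 1 : ℕ)) : ℝ) ≤ ((2 : ℝ) ^ N) ^ 2 * d := by
        have h10 : (((j + 1 : ℕ)) : ℝ) ≤ (((3 ^ N * d : ℕ)) : ℝ) := by exact_mod_cast hle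
        refine h10.trans ?_
        push_cast
        apply mul_le_mul_of_nonneg_right _ (by positivity)
        rw [← pow_mul, mul_comm N 2, pow_mul]
        exact pow_le_pow_left₀ (by norm_num) (by norm_num) N
      calc P * ε ^ 2 ^ N * ((j + 1 : ℕ) : ℝ) ≤ P * ε ^ 2 ^ N * (((2 : ℝ) ^ N) ^ 2 * d) :=
            mul_le_mul_of_nonneg_left h9 (by positivity)
        _ = (P * d) * (((2 : ℝ) ^ N) ^ 2 * ε ^ 2 ^ N) := by ring
  have hlim : Filter.Tendsto (fun N : ℕ => (P * d) * (((2 : ℝ) ^ N) ^ 2 * ε ^ 2 ^ N))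
      Filter.atTop (nhds 0) := by
    have h1 : Filter.Tendsto (fun n : ℕ => (n : ℝ) ^ 2 * ε ^ n) Filter.atTop (nhds 0) :=
      tendsto_pow_const_mul_const_pow_of_abs_lt_one 2 (by rw [abs_of_nonneg hε0]; exact hε)
    have h2 : Filter.Tendsto (fun N : ℕ => 2 ^ N) Filter.atTop Filter.atTop :=
      tendsto_pow_atTop_atTop_of_one_lt (by norm_num)
    have h3 := (h1.comp h2).const_mul (P * d)
    simp only [Function.comp_def, mul_zero] at h3
    refine h3.congr (fun N => ?_)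
    push_cast
    rfl
  have h0 := ge_of_tendsto' hlim key
  have h1 := le_antisymm h0 (norm_nonneg _)
  exact sub_eq_zero.1 (norm_eq_zero.1 h1)

end FamData

end Pool.Agent.Y84.PC
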