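import Pool.Agent.Y84.PC.A

set_option autoImplicit false
set_option linter.unusedSectionVars false

/-! Idempotent matrices over the group ring of a finite group with coefficients in a normed algebra
with a trace. -/

namespace Pool.Agent.Y84.PC

open Polynomial Matrix
open Pool.Agent.Y84.PT hiding CI MM MM_sq ss trace_roots ss_zero conj_sum_zero
open Pool.Agent.Y84.PG (CI MM MM_sq ss)

section Main

variable {Q : Type*} [Group Q] [Fintype Q] {κ : Type*} [Fintype κ] [DecidableEq κ]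
variable {F : Type*} [NormedField F] [IsUltrametricDist F]
variable {U B : Type*} [Ring U] [Ring B] [Algebra F U] [Algebra F[X] B] (S : FamData F U B)
variable (C₀ : Subgroup Q) [Fintype C₀] [Fintype (Q ⧸ C₀)] [DecidableEq (Q ⧸ C₀)]

theorem tr_MM (ν : C₀ → ℕ) (e : κ → κ → Q → U) (x : F) :
    S.tr₀ (MM C₀ (RingHom.id U) ν e x) = ∑ y : C₀, S.T₀ (ss C₀ e y) * x ^ ν y := by
  unfold FamData.tr₀ MM ss
  simp only [map_sum, RingHom.id_apply, S.T₀_smul]
  rw [Finset.sum_comm]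
  refine Finset.sum_congr rfl (fun y _ => ?_)
  rw [Fintype.sum_prod_type, Finset.sum_mul]
  refine Finset.sum_congr rfl (fun t _ => ?_)
  rw [Finset.sum_mul]
  exact Finset.sum_congr rfl (fun i _ => mul_comm _ _)

theorem ev_MM (ν : C₀ → ℕ) (e : κ → κ → Q → U) (x : F[X]) (w : F) :
    S.evm w (MM C₀ S.cc ν e x) = MM C₀ (RingHom.id U) ν e (x.eval w) := by
  ext1 a b
  unfold MM FamData.evm
  simp only [RingHom.mapMatrix_apply, Matrix.map_apply, map_sum, S.ev_smul, S.ev_cc,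
    RingHom.id_apply, eval_pow]

/-- equality of the traces at `ζ` and `ζ ω` -/
theorem trace_roots (hnat : ∀ n : ℕ, n ≠ 0 → (1 : ℝ) / n ≤ ‖(n : F)‖)
    {p : ℕ} (hp : p.Prime) (hp1 : ‖(p : F)‖ < 1)
    {ν : C₀ → ℕ} {n : ℕ} (hν : ∀ y z : C₀, ∃ l, ν y + ν z = ν (y * z) + n * l)
    (hνn : ∀ y, ν y < n)
    {e : κ → κ → Q → U} (he : CI e) {P : ℝ} (hP : 1 ≤ P)
    (heP : ∀ i j q, S.NU (e i j q) P)
    {k : ℕ} (hk : P * P * ‖(p : F)‖ ^ k ≤ 1) (hkn : p ^ k ∣ n) (hpn : p ∣ n)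
    {ζ ω : F} (hζ : ζ ^ n = 1) (hn : n ≠ 0) (hω : ω ^ p = 1) (hω1 : ω ≠ 1) :
    ∑ y : C₀, S.T₀ (ss C₀ e y) * (ζ * ω) ^ ν y = ∑ y : C₀, S.T₀ (ss C₀ e y) * ζ ^ ν y := by
  have hP0 : 0 ≤ P := zero_le_one.trans hP
  obtain ⟨hϖ1, hϖp⟩ := norm_root_sub_one hp hp1 hω hω1
  have hζn : ‖ζ‖ ≤ 1 := by
    have h := congrArg norm hζ
    rw [norm_pow, norm_one] at h
    exact ((pow_eq_one_iff_of_nonneg (norm_nonneg _) hn).1 h).le
  set ϖ := ω - 1 with hϖ
  set x : F[X] := xx ζ ϖ with hx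
  set δ : ℝ := ‖(p : F)‖ ^ k * ‖ϖ‖ with hδ
  have hδ0 : 0 ≤ δ := mul_nonneg (pow_nonneg (norm_nonneg _) _) (norm_nonneg _)
  have hδ1 : δ ≤ 1 := mul_le_one₀ (pow_le_one₀ (norm_nonneg _) hp1.le) (norm_nonneg _) hϖ1.le
  have hx1 : Bd x 1 := xx_bd hζn hϖ1.le
  have hxd : x.natDegree ≤ 1 := by
    rw [hx]
    unfold xx
    refine (natDegree_C_mul_le _ _).trans ?_
    refine (natDegree_add_le _ _).trans (max_le (by simp) ?_)
    exact (natDegree_C_mul_le _ _).trans natDegree_X_le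
  have hxn : Bd (x ^ n - 1) δ := xx_pow hp hϖ1.le hϖp hkn hζ
  have hxl : ∀ l : ℕ, Bd (x ^ (n * l) - 1) δ := by
    intro l
    have h1 := bd_pow_any hxn hδ1 l
    rw [pow_mul]
    have h2 : (1 + (x ^ n - 1)) ^ l - 1 = (x ^ n) ^ l - 1 := by ring
    rwa [h2] at h1
  set E : Matrix ((Q ⧸ C₀) × κ) ((Q ⧸ C₀) × κ) B := MM C₀ S.cc ν e x with hE
  have hEP : S.MB E P := by
    intro a b
    rw [hE]
    unfold MM
    apply S.nb_sum hP0
    intro y _
    have := S.nb_smul (hx1.pow_one (ν y))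
      (S.nb_cc (heP a.2 b.2 (a.1.out * (y : Q) * b.1.out⁻¹)))
    rwa [one_mul] at this
  have hED : S.MD E n := by
    intro a b
    rw [hE]
    unfold MM
    apply S.nd_sum
    intro y _
    have h1 : (x ^ ν y).natDegree ≤ n := by
      refine natDegree_pow_le.trans ?_
      calc ν y * x.natDegree ≤ n * 1 := Nat.mul_le_mul (hνn y).le hxd
        _ = n := mul_one n
    exact S.nd_smul h1 (S.nd_cc _)
  have hdE : S.MB (df E) ‖ϖ‖ := by
    intro a b
    have h1 : df E = E * E - E := rfl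
    rw [h1, hE, MM_sq C₀ S.cc ν he]
    apply S.nb_sum (norm_nonneg _)
    intro d _
    apply S.nb_sum (norm_nonneg _)
    intro y _
    apply S.nb_sum (norm_nonneg _)
    intro z _
    obtain ⟨l, hl⟩ := hν y z
    have h2 : x ^ (ν y + ν z) - x ^ ν (y * z) = x ^ ν (y * z) * (x ^ (n * l) - 1) := by
      rw [hl, pow_add]; ring
    rw [h2]
    have h3 := S.nb_smul ((hx1.pow_one (ν (y * z))).mul (hxl l))
      (S.nb_mul (S.nb_cc (heP a.2 d.2 (a.1.out * (y : Q) * d.1.out⁻¹)))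
        (S.nb_cc (heP d.2 b.2 (d.1.out * (z : Q) * b.1.out⁻¹))) hP0 hP0)
    refine S.nb_mono h3 ?_
    rw [one_mul, hδ, mul_comm, ← mul_assoc]
    calc P * P * ‖(p : F)‖ ^ k * ‖ϖ‖ ≤ 1 * ‖ϖ‖ := mul_le_mul_of_nonneg_right hk (norm_nonneg _)
      _ = ‖ϖ‖ := one_mul _
  have hmap : ∀ w : F, S.evm w E = MM C₀ (RingHom.id U) ν e (x.eval w) :=
    fun w => ev_MM S C₀ ν e x w
  have hidem : ∀ w : F, (x.eval w) ^ n = 1 → S.evm w E * S.evm w E = S.evm w E := by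
    intro w hw
    rw [hmap]
    ext1 a b
    have h1 := MM_sq C₀ (RingHom.id U) ν he (x.eval w) a b
    rw [Matrix.sub_apply] at h1
    rw [← sub_eq_zero, h1]
    apply Finset.sum_eq_zero
    intro d _
    apply Finset.sum_eq_zero
    intro y _
    apply Finset.sum_eq_zero
    intro z _
    obtain ⟨l, hl⟩ := hν y z
    rw [hl, pow_add, pow_mul, hw, one_pow, mul_one, sub_self, zero_smul]
  have hx0 : x.eval 0 = ζ := xx_zero ζ ϖ
  have hx1' : x.eval 1 = ζ * ω := xx_one ζ ω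
  have hωn : ω ^ n = 1 := by
    obtain ⟨m, rfl⟩ := hpn
    rw [pow_mul, hω, one_pow]
  have hres := S.trace_eq hnat (E := E) hP hϖ1 hEP hdE hED (norm_nonneg _)
    (u := 1) (v := 0) (by simp) (by simp)
    (hidem 1 (by rw [hx1', mul_pow, hζ, hωn, one_mul])) (hidem 0 (by rw [hx0, hζ]))
  rw [hmap, hmap, hx0, hx1', tr_MM, tr_MM] at hres
  exact hres

/-- vanishing of the coset sum at an element `c` with exponent one -/
theorem ss_zero (hnat : ∀ n : ℕ, n ≠ 0 → (1 : ℝ) / n ≤ ‖(n : F)‖)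
    {p : ℕ} (hp : p.Prime) (hp1 : ‖(p : F)‖ < 1)
    {ν : C₀ → ℕ} {n : ℕ} (hν : ∀ y z : C₀, ∃ l, ν y + ν z = ν (y * z) + n * l)
    (hνn : ∀ y, ν y < n) (hνi : Function.Injective ν)
    {e : κ → κ → Q → U} (he : CI e) {P : ℝ} (hP : 1 ≤ P)
    (heP : ∀ i j q, S.NU (e i j q) P)
    {k : ℕ} (hk : P * P * ‖(p : F)‖ ^ k ≤ 1) (hkn : p ^ k ∣ n) (hpn : p ∣ n)
    {ω ξ : F} (hξ : IsPrimitiveRoot ξ n) (hn : n ≠ 0) (hω : ω ^ p = 1) (hω1 : ω ≠ 1)
    {c : C₀} (hc : ν c = 1) : S.T₀ (ss C₀ e c) = 0 := by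
  classical
  set f : F[X] := ∑ y : C₀, C (S.T₀ (ss C₀ e y) * (ω ^ ν y - 1)) * X ^ ν y with hf
  have hdeg : f.natDegree < n := by
    have h1 : f.natDegree ≤ n - 1 := by
      rw [hf]
      apply natDegree_sum_le_of_forall_le
      intro y _
      refine (natDegree_C_mul_X_pow_le _ _).trans ?_
      have := hνn y
      omega
    omega
  have hev : ∀ a : Fin n, f.eval (ξ ^ (a : ℕ)) = 0 := by
    intro a
    have hz : (ξ ^ (a : ℕ)) ^ n = 1 := by
      rw [← pow_mul, mul_comm, pow_mul, hξ.pow_eq_one, one_pow]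
    have h1 := trace_roots S C₀ hnat hp hp1 hν hνn he hP heP hk hkn hpn hz hn hω hω1
    rw [hf, eval_finsetSum]
    rw [← sub_eq_zero, ← Finset.sum_sub_distrib] at h1
    rw [← h1]
    refine Finset.sum_congr rfl (fun y _ => ?_)
    simp only [eval_mul, eval_C, eval_pow, eval_X]
    rw [mul_pow]
    ring
  have hinj : Function.Injective (fun a : Fin n => ξ ^ (a : ℕ)) := by
    intro a b hab
    exact Fin.ext (hξ.pow_inj a.2 b.2 hab)
  have hf0 : f = 0 := by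
    apply Polynomial.eq_zero_of_natDegree_lt_card_of_eval_eq_zero f hinj hev
    simpa using hdeg
  have h1 : f.coeff 1 = S.T₀ (ss C₀ e c) * (ω - 1) := by
    rw [hf, finsetSum_coeff, Finset.sum_eq_single c]
    · rw [coeff_C_mul_X_pow, hc]
      simp
    · intro y _ hyc
      rw [coeff_C_mul_X_pow, if_neg]
      intro h
      exact hyc (hνi (by rw [hc]; exact h.symm))
    · intro h; exact absurd (Finset.mem_univ c) h
  rw [hf0, coeff_zero] at h1
  rcases mul_eq_zero.1 h1.symm with h | h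
  · exact h
  · exact absurd (sub_eq_zero.1 h) hω1

end Main

section Final

variable {Q : Type*} [Group Q] [Fintype Q] {κ : Type*} [Fintype κ] [DecidableEq κ]
variable {F : Type*} [NormedField F] [IsUltrametricDist F]
variable {U B : Type*} [Ring U] [Ring B] [Algebra F U] [Algebra F[X] B] (S : FamData F U B)

/-- vanishing of the sum over all conjugates -/
theorem conj_sum_zero (hnat : ∀ n : ℕ, n ≠ 0 → (1 : ℝ) / n ≤ ‖(n : F)‖)
    (hroot : ∀ n : ℕ, n ≠ 0 → ∃ ξ : F, IsPrimitiveRoot ξ n)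
    {p : ℕ} (hp : p.Prime) (hp1 : ‖(p : F)‖ < 1)
    {e : κ → κ → Q → U} (he : CI e) {P : ℝ} (hP : 1 ≤ P)
    (heP : ∀ i j q, S.NU (e i j q) P)
    {k : ℕ} (hk : P * P * ‖(p : F)‖ ^ k ≤ 1) (c : Q) (hkn : p ^ k ∣ orderOf c)
    (hpn : p ∣ orderOf c) :
    ∑ x : Q, ∑ i : κ, S.T₀ (e i i (x * c * x⁻¹)) = 0 := by
  classical
  set C₀ : Subgroup Q := Subgroup.zpowers c with hC
  let _ : Fintype C₀ := Fintype.ofFinite _
  let _ : Fintype (Q ⧸ C₀) := Fintype.ofFinite _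
  have hfin : IsOfFinOrder c := isOfFinOrder_of_finite c
  have hn : orderOf c ≠ 0 := (orderOf_pos c).ne'
  have hn2 : 1 < orderOf c := lt_of_lt_of_le hp.one_lt (Nat.le_of_dvd (orderOf_pos c) hpn)
  let eqv : Fin (orderOf c) ≃ C₀ := finEquivZPowers hfin
  let ν : C₀ → ℕ := fun y => (eqv.symm y : ℕ)
  have hνc : ∀ y : C₀, c ^ ν y = (y : Q) := by
    intro y
    have h1 : eqv (eqv.symm y) = y := eqv.apply_symm_apply y
    have h2 : ((eqv (eqv.symm y) : C₀) : Q) = c ^ ((eqv.symm y : Fin (orderOf c)) : ℕ) := rfl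
    rw [h1] at h2
    exact h2.symm
  have hνn : ∀ y, ν y < orderOf c := fun y => (eqv.symm y).2
  have hνi : Function.Injective ν := by
    intro y z h
    apply Subtype.ext
    rw [← hνc y, ← hνc z, h]
  have hν : ∀ y z : C₀, ∃ l, ν y + ν z = ν (y * z) + orderOf c * l := by
    intro y z
    have h1 : c ^ (ν y + ν z) = c ^ ν (y * z) := by
      rw [pow_add, hνc, hνc, hνc]; rfl
    have h2 : ν y + ν z ≡ ν (y * z) [MOD orderOf c] := pow_eq_pow_iff_modEq.1 h1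
    have h3 : (ν y + ν z) % orderOf c = ν (y * z) := by
      have h4 : (ν y + ν z) % orderOf c = ν (y * z) % orderOf c := h2
      rw [h4, Nat.mod_eq_of_lt (hνn _)]
    refine ⟨(ν y + ν z) / orderOf c, ?_⟩
    rw [← h3]
    exact (Nat.mod_add_div _ _).symm
  let c' : C₀ := ⟨c, Subgroup.mem_zpowers c⟩
  have hc1 : ν c' = 1 := by
    have h1 : c ^ ν c' = c ^ 1 := by rw [hνc, pow_one]
    have h2 := pow_eq_pow_iff_modEq.1 h1
    have h3 : ν c' % orderOf c = 1 % orderOf c := h2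
    rw [Nat.mod_eq_of_lt (hνn _), Nat.mod_eq_of_lt hn2] at h3
    exact h3
  obtain ⟨ξ, hξ⟩ := hroot (orderOf c) hn
  obtain ⟨ω, hω⟩ := hroot p hp.ne_zero
  have hz := ss_zero S C₀ hnat hp hp1 hν hνn hνi he hP heP hk hkn hpn hξ hn hω.pow_eq_one
    (hω.ne_one hp.one_lt) (c := c') hc1
  rw [← sum_coset C₀ (fun x => ∑ i : κ, S.T₀ (e i i (x * c * x⁻¹)))]
  have h1 : ∀ t : Q ⧸ C₀, ∀ y : C₀,
      ∑ i : κ, S.T₀ (e i i (t.out * (y : Q) * c * (t.out * (y : Q))⁻¹)) =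
      ∑ i : κ, S.T₀ (e i i (t.out * ((c' : C₀) : Q) * t.out⁻¹)) := by
    intro t y
    have h2 : (y : Q) * c = c * (y : Q) := by
      rw [← hνc y]
      exact ((Commute.refl c).pow_left _).eq
    have h3 : t.out * (y : Q) * c * (t.out * (y : Q))⁻¹ = t.out * c * t.out⁻¹ := by
      rw [mul_assoc t.out, h2]; group
    rw [h3]
  simp only [h1]
  rw [Finset.sum_comm]
  simp only [Finset.sum_const]
  unfold ss at hz
  simp only [map_sum] at hz
  rw [hz, smul_zero]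

end Final

end Pool.Agent.Y84.PC
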