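import Pool.Agent.Y84.PC.U

set_option autoImplicit false
set_option linter.unusedSectionVars false

/-! The cocycle of a homomorphism from a centraliser to a finite group, and vanishing of the trace at a
conjugacy class. -/

namespace Pool.Agent.Y84.PC

open Matrix
open Pool.Agent.Y84.PG (T T_single T_map tr_apply tr_map idem_map exists_lift cls cls_inv CI)
open Pool.Agent.Y84.PT (norm_nat_ge exists_root norm_p_lt norm_p_eq norm_nat norm_le_one_of_integral
  exists_prime_of_pow_ne)

section Comp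

variable {R : Type*} [CommRing R] {G : Type*} [Group G] {Q : Type*} [Group Q]

/-- the cocycle identity -/
def Coc (ρ : G → G → Q) : Prop := ∀ h k x : G, ρ (h * k) x = ρ h x * ρ k (h⁻¹ * x * h)

open Classical in
/-- the coefficient function of the component of degree `q` -/
noncomputable def cf (ρ : G → G → Q) (q : Q) (h : G) : R →+ Fn G R where
  toFun r := fun p => if ρ h p = q then r else 0
  map_zero' := by
    funext p
    exact ite_self 0
  map_add' r s := by
    funext p
    change (if ρ h p = q then r + s else 0) = (if ρ h p = q then r else 0) +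
      (if ρ h p = q then s else 0)
    split_ifs
    · rfl
    · rw [add_zero]

open Classical in
theorem cf_apply (ρ : G → G → Q) (q : Q) (h : G) (r : R) (p : G) :
    cf ρ q h r p = if ρ h p = q then r else 0 := rfl

/-- the component of degree `q` -/
noncomputable def comp (ρ : G → G → Q) (q : Q) : MonoidAlgebra R G →+ Sk G R :=
  (Finsupp.liftAddHom (fun h =>
    (SkewMonoidAlgebra.singleAddHom (k := Fn G R) h).comp (cf ρ q h))).comp
    (MonoidAlgebra.coeffAddEquiv (R := R) (M := G)).toAddMonoidHom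

theorem comp_single (ρ : G → G → Q) (q : Q) (h : G) (r : R) :
    comp ρ q (MonoidAlgebra.single h r) = SkewMonoidAlgebra.single h (cf ρ q h r) := by
  change Finsupp.sum (Finsupp.single h r) (fun h r =>
    ((SkewMonoidAlgebra.singleAddHom (k := Fn G R) h).comp (cf ρ q h)) r) = _
  rw [Finsupp.sum_single_index]
  · rfl
  · exact map_zero _

open Classical in
theorem comp_coeff (ρ : G → G → Q) (q : Q) (x : MonoidAlgebra R G) (h p : G) :
    (comp ρ q x).coeff h p = if ρ h p = q then x.coeff h else 0 := by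
  induction x using MonoidAlgebra.induction_linear with
  | zero =>
    rw [map_zero]
    change (0 : R) = if ρ h p = q then 0 else 0
    rw [ite_self]
  | add x₁ x₂ h₁ h₂ =>
    rw [map_add, sk_add, h₁, h₂, MonoidAlgebra.coeff_add, Finsupp.add_apply]
    split_ifs
    · rfl
    · rw [add_zero]
  | single a r =>
    rw [comp_single, SkewMonoidAlgebra.coeff_single, MonoidAlgebra.coeff_single,
      Finsupp.single_apply, Finsupp.single_apply]
    by_cases ha : a = h
    · rw [if_pos ha, if_pos ha, ← ha]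
      rfl
    · rw [if_neg ha, if_neg ha, ite_self]
      rfl

theorem comp_mul [Fintype Q] {ρ : G → G → Q} (hρ : Coc ρ) (q : Q) (x y : MonoidAlgebra R G) :
    comp ρ q (x * y) = ∑ h : Q, comp ρ h x * comp ρ (h⁻¹ * q) y := by
  classical
  induction x using MonoidAlgebra.induction_linear with
  | zero => simp
  | add x₁ x₂ h₁ h₂ =>
    rw [add_mul, map_add, h₁, h₂, ← Finset.sum_add_distrib]
    refine Finset.sum_congr rfl (fun h _ => ?_)
    rw [map_add, add_mul]
  | single a r =>
    induction y using MonoidAlgebra.induction_linear with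
    | zero => simp
    | add y₁ y₂ h₁ h₂ =>
      rw [mul_add, map_add, h₁, h₂, ← Finset.sum_add_distrib]
      refine Finset.sum_congr rfl (fun h _ => ?_)
      rw [map_add, mul_add]
    | single b s =>
      rw [MonoidAlgebra.single_mul_single, comp_single]
      have h1 : ∀ h : Q, comp ρ h (MonoidAlgebra.single a r) *
          comp ρ (h⁻¹ * q) (MonoidAlgebra.single b s) =
          SkewMonoidAlgebra.single (a * b) (cf ρ h a r * a • cf ρ (h⁻¹ * q) b s) := by
        intro h
        rw [comp_single, comp_single, SkewMonoidAlgebra.single_mul_single]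
      simp only [h1]
      have h2 : ∑ h : Q, SkewMonoidAlgebra.single (a * b) (cf ρ h a r * a • cf ρ (h⁻¹ * q) b s) =
          SkewMonoidAlgebra.single (a * b) (∑ h : Q, (cf ρ h a r * a • cf ρ (h⁻¹ * q) b s)) :=
        (map_sum (SkewMonoidAlgebra.singleAddHom (k := Fn G R) (a * b)) _ _).symm
      rw [h2]
      congr 1
      funext p
      change _ = evp p (∑ h : Q, (cf ρ h a r * a • cf ρ (h⁻¹ * q) b s))
      rw [map_sum]
      have h3 : ∀ h : Q, evp p (cf ρ h a r * a • cf ρ (h⁻¹ * q) b s) =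
          (if ρ a p = h then r else 0) * (if ρ b (a⁻¹ * p * a) = h⁻¹ * q then s else 0) :=
        fun h => rfl
      simp only [h3]
      rw [Finset.sum_eq_single (ρ a p)]
      · rw [cf_apply, if_pos rfl, hρ]
        by_cases h : ρ a p * ρ b (a⁻¹ * p * a) = q
        · rw [if_pos h, if_pos]
          rw [← h]; group
        · rw [if_neg h, if_neg, mul_zero]
          intro h'
          apply h
          rw [h']; group
      · intro h _ hne
        rw [if_neg (fun h' => hne h'.symm), zero_mul]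
      · intro h; exact absurd (Finset.mem_univ _) h

variable {κ : Type*} [Fintype κ] [DecidableEq κ]

theorem CI_comp [Fintype Q] {ρ : G → G → Q} (hρ : Coc ρ) {E : Matrix κ κ (MonoidAlgebra R G)}
    (hE : E * E = E) : CI (fun i j q => comp ρ q (E i j)) := by
  intro i k g
  have h1 : (E * E) i k = E i k := by rw [hE]
  rw [Matrix.mul_apply] at h1
  change _ = comp ρ g (E i k)
  rw [← h1, map_sum]
  exact Finset.sum_congr rfl (fun j _ => (comp_mul hρ g _ _).symm)

open Classical in
theorem TU_comp {ρ : G → G → Q} {g : G} {c : Q} (hc : ∀ h ∈ cls g, ρ h h = c)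
    (q : Q) (x : MonoidAlgebra R G) :
    TU (cls g) (comp ρ q x) = if c = q then T (cls g) x else 0 := by
  induction x using MonoidAlgebra.induction_linear with
  | zero => simp
  | add x₁ x₂ h₁ h₂ =>
    rw [map_add, map_add, map_add, h₁, h₂]
    split_ifs
    · rfl
    · rw [add_zero]
  | single a r =>
    rw [comp_single, TU_single, T_single]
    by_cases ha : a ∈ cls g
    · rw [if_pos ha, if_pos ha, cf_apply, hc a ha]
    · rw [if_neg ha, if_neg ha, ite_self]

/-- the cocycle of a homomorphism from the centraliser -/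
theorem exists_coc (g : G) (π : Subgroup.centralizer ({g} : Set G) →* Q) :
    ∃ ρ : G → G → Q, Coc ρ ∧ ∀ h ∈ cls g, ρ h h = π ⟨g, Subgroup.mem_centralizer_singleton_iff.2 rfl⟩ := by
  classical
  have h0 : ∀ h : G, ∃ s : G, h ∈ cls g → s * g * s⁻¹ = h := by
    intro h
    by_cases hh : h ∈ cls g
    · obtain ⟨c, hc⟩ := isConj_iff.1 hh
      exact ⟨c, fun _ => hc⟩
    · exact ⟨1, fun h' => absurd h' hh⟩
  choose s hs using h0
  have hcl : ∀ h x : G, x ∈ cls g → h⁻¹ * x * h ∈ cls g := by
    intro h x hx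
    refine IsConj.trans hx ?_
    exact isConj_iff.2 ⟨h⁻¹, by group⟩
  have hcl' : ∀ h x : G, h⁻¹ * x * h ∈ cls g → x ∈ cls g := by
    intro h x hx
    refine IsConj.trans hx ?_
    exact isConj_iff.2 ⟨h, by group⟩
  have hcen : ∀ h x : G, x ∈ cls g →
      (s x)⁻¹ * h * s (h⁻¹ * x * h) ∈ Subgroup.centralizer ({g} : Set G) := by
    intro h x hx
    rw [Subgroup.mem_centralizer_singleton_iff]
    have h1 := hs x hx
    have h2 := hs _ (hcl h x hx)
    have h3 : s (h⁻¹ * x * h) * g = h⁻¹ * x * h * s (h⁻¹ * x * h) := by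
      rw [mul_inv_eq_iff_eq_mul] at h2
      exact h2
    have h4 : g * (s x)⁻¹ = (s x)⁻¹ * x := by
      rw [mul_inv_eq_iff_eq_mul] at h1
      rw [eq_inv_mul_iff_mul_eq, ← mul_assoc, h1]; group
    calc (s x)⁻¹ * h * s (h⁻¹ * x * h) * g = (s x)⁻¹ * h * (s (h⁻¹ * x * h) * g) := by group
      _ = (s x)⁻¹ * h * (h⁻¹ * x * h * s (h⁻¹ * x * h)) := by rw [h3]
      _ = (s x)⁻¹ * x * h * s (h⁻¹ * x * h) := by group
      _ = g * (s x)⁻¹ * h * s (h⁻¹ * x * h) := by rw [h4]
      _ = g * ((s x)⁻¹ * h * s (h⁻¹ * x * h)) := by group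
  refine ⟨fun h x => if hx : x ∈ cls g then π ⟨_, hcen h x hx⟩ else 1, ?_, ?_⟩
  · intro h k x
    beta_reduce
    by_cases hx : x ∈ cls g
    · rw [dif_pos hx, dif_pos hx, dif_pos (hcl h x hx), ← map_mul]
      congr 1
      apply Subtype.ext
      change (s x)⁻¹ * (h * k) * s ((h * k)⁻¹ * x * (h * k)) =
        (s x)⁻¹ * h * s (h⁻¹ * x * h) * ((s (h⁻¹ * x * h))⁻¹ * k * s (k⁻¹ * (h⁻¹ * x * h) * k))
      rw [show (h * k)⁻¹ * x * (h * k) = k⁻¹ * (h⁻¹ * x * h) * k by group]
      group
    · rw [dif_neg hx, dif_neg hx, dif_neg (fun h' => hx (hcl' h x h')), one_mul]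
  · intro h hh
    beta_reduce
    rw [dif_pos hh]
    congr 1
    apply Subtype.ext
    change (s h)⁻¹ * h * s (h⁻¹ * h * h) = g
    rw [show h⁻¹ * h * h = h by group]
    have h1 := hs h hh
    calc (s h)⁻¹ * h * s h = (s h)⁻¹ * (s h * g * (s h)⁻¹) * s h := by rw [h1]
      _ = g := by group

end Comp

section Main

variable {F : Type*} [NormedField F] [IsUltrametricDist F] {G : Type*} [Group G]
variable {κ : Type*} [Fintype κ] [DecidableEq κ]

/-- vanishing of the trace at the class of `g`, if the image of `g` in a finite image of its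
centraliser has an order divisible by a high power of `p` -/
theorem tr_cls_zero (hnat : ∀ n : ℕ, n ≠ 0 → (1 : ℝ) / n ≤ ‖(n : F)‖)
    (hroot : ∀ n : ℕ, n ≠ 0 → ∃ ξ : F, IsPrimitiveRoot ξ n)
    {p : ℕ} (hp : p.Prime) (hp1 : ‖(p : F)‖ < 1)
    {E : Matrix κ κ (MonoidAlgebra F G)} (hE : E * E = E) {P : ℝ} (hP : 1 ≤ P)
    (hEP : ∀ i j g, ‖(E i j).coeff g‖ ≤ P)
    {k : ℕ} (hk : P * P * ‖(p : F)‖ ^ k ≤ 1)
    {Q : Type*} [Group Q] [Finite Q] (g : G) (π : Subgroup.centralizer ({g} : Set G) →* Q) {c : Q}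
    (hc : c = π ⟨g, Subgroup.mem_centralizer_singleton_iff.2 rfl⟩) (hkn : p ^ k ∣ orderOf c)
    (hpn : p ∣ orderOf c) : PG.tr (cls g) E = 0 := by
  classical
  let _ : Fintype Q := Fintype.ofFinite Q
  obtain ⟨ρ, hρ, hρc⟩ := exists_coc g π
  rw [← hc] at hρc
  have h1 := conj_sum_zero (fam (F := F) (cls_inv g)) hnat hroot hp hp1 (CI_comp hρ hE) hP
    (fun i j q => by
      intro h x
      rw [comp_coeff]
      split_ifs
      · exact hEP i j h
      · rw [norm_zero]; exact zero_le_one.trans hP) hk c hkn hpn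
  have h2 : ∀ x : Q, ∀ i : κ, (fam (F := F) (cls_inv g)).T₀ (comp ρ (x * c * x⁻¹) (E i i)) =
      if x * c * x⁻¹ = c then T (cls g) (E i i) else 0 := by
    intro x i
    change TU (cls g) (comp ρ (x * c * x⁻¹) (E i i)) = _
    rw [TU_comp hρc]
    by_cases h : x * c * x⁻¹ = c
    · rw [if_pos h, if_pos h.symm]
    · rw [if_neg h, if_neg (fun h' => h h'.symm)]
  simp only [h2] at h1
  rw [Finset.sum_comm] at h1
  have h3 : ∀ i : κ, (∑ x : Q, if x * c * x⁻¹ = c then T (cls g) (E i i) else 0) =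
      ((Finset.univ.filter (fun z : Q => z * c * z⁻¹ = c)).card : F) * T (cls g) (E i i) := by
    intro i
    rw [← Finset.sum_filter, Finset.sum_const, nsmul_eq_mul]
  simp only [h3] at h1
  rw [← Finset.mul_sum, ← tr_apply] at h1
  rcases mul_eq_zero.1 h1 with h | h
  · exfalso
    set N := (Finset.univ.filter (fun z : Q => z * c * z⁻¹ = c)).card with hN
    have hN0 : N ≠ 0 := by
      rw [hN]
      apply Finset.card_ne_zero_of_mem (a := 1)
      rw [Finset.mem_filter]
      exact ⟨Finset.mem_univ _, by simp⟩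
    have h2 := hnat N hN0
    rw [h, norm_zero] at h2
    have h3 : (0 : ℝ) < 1 / N := by positivity
    linarith
  · exact h

end Main

section Padic

variable {G : Type*} [Group G] {κ : Type*} [Fintype κ] [DecidableEq κ]

theorem padic_tr_zero (p : ℕ) [hp : Fact p.Prime]
    {E : Matrix κ κ (MonoidAlgebra (PadicAlgCl p) G)} (hE : E * E = E) {P : ℝ} (hP : 1 ≤ P)
    (hEP : ∀ i j g, ‖(E i j).coeff g‖ ≤ P)
    {k : ℕ} (hk : P * P * ‖(p : PadicAlgCl p)‖ ^ k ≤ 1)
    {Q : Type*} [Group Q] [Finite Q] (g : G) (π : Subgroup.centralizer ({g} : Set G) →* Q) {c : Q}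
    (hc : c = π ⟨g, Subgroup.mem_centralizer_singleton_iff.2 rfl⟩) (hkn : p ^ k ∣ orderOf c)
    (hpn : p ∣ orderOf c) : PG.tr (cls g) E = 0 :=
  tr_cls_zero (norm_nat_ge p) (exists_root p) hp.out (norm_p_lt p) hE hP hEP hk g π hc hkn hpn

/-- an arbitrary group: if `N` times the coefficients are integral and the image of `g` in a finite
image of its centraliser has an order not dividing `N ^ 2`, then the trace at the class of `g`
vanishes -/
theorem tr_zero_of_integral {K : Type*} [Field K] [CharZero K]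
    {E : Matrix κ κ (MonoidAlgebra K G)} (hE : E * E = E) {N : ℕ}
    (hN : N ≠ 0) (hint : ∀ i j g, IsIntegral ℤ ((N : K) * (E i j).coeff g))
    {Q : Type*} [Group Q] [Finite Q] (g : G) (π : Subgroup.centralizer ({g} : Set G) →* Q) {c : Q}
    (hgc : c = π ⟨g, Subgroup.mem_centralizer_singleton_iff.2 rfl⟩)
    (hc : c ^ (N ^ 2) ≠ 1) : PG.tr (cls g) E = 0 := by
  let _ : Fintype Q := Fintype.ofFinite Q
  obtain ⟨p, hp, hk, hpc⟩ := exists_prime_of_pow_ne hN hc
  have : Fact p.Prime := ⟨hp⟩
  let L : IntermediateField ℚ K := algebraicClosure ℚ K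
  have hLalg : Algebra.IsAlgebraic ℚ L := algebraicClosure.isAlgebraic ℚ K
  have hNK : (N : K) ≠ 0 := by exact_mod_cast hN
  have hmem : ∀ i j g, (E i j).coeff g ∈ L := by
    intro i j g
    have h1 : IsAlgebraic ℚ ((N : K) * (E i j).coeff g) :=
      ((hint i j g).tower_top (A := ℚ)).isAlgebraic
    have h2 : (N : K) * (E i j).coeff g ∈ L := mem_algebraicClosure_iff.2 h1
    have h3 : (E i j).coeff g = (N : K)⁻¹ * ((N : K) * (E i j).coeff g) := by field_simp
    rw [h3]
    exact L.mul_mem (L.inv_mem (natCast_mem L N)) h2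
  let ψ : L →ₐ[ℚ] PadicAlgCl p := IsAlgClosed.lift
  have hψi : Function.Injective ψ := ψ.toRingHom.injective
  obtain ⟨E₀, hE₀, hE₀E⟩ := exists_lift (algebraMap L K) (algebraMap L K).injective hE
    (fun i j g => ⟨⟨_, hmem i j g⟩, rfl⟩)
  have hcoef : ∀ i j g, algebraMap L K ((E₀ i j).coeff g) = (E i j).coeff g := by
    intro i j g
    rw [← hE₀E]
    rfl
  set v := padicValNat p N with hv
  have hNp : ‖(N : PadicAlgCl p)‖ = ((p : ℝ) ^ v)⁻¹ := norm_nat p hN
  have hp0 : (0 : ℝ) < p := by exact_mod_cast hp.pos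
  have hP : (1 : ℝ) ≤ (p : ℝ) ^ v := one_le_pow₀ (by exact_mod_cast hp.one_lt.le)
  have hPb : ∀ i j g, ‖((E₀.map (MonoidAlgebra.mapRingHom G ψ.toRingHom)) i j).coeff g‖ ≤
      (p : ℝ) ^ v := by
    intro i j g
    change ‖ψ ((E₀ i j).coeff g)‖ ≤ (p : ℝ) ^ v
    have h1 : IsIntegral ℤ ((N : L) * (E₀ i j).coeff g) := by
      have h2 : IsIntegral ℤ (algebraMap L K ((N : L) * (E₀ i j).coeff g)) := by
        rw [map_mul, map_natCast, hcoef]; exact hint i j g
      exact (isIntegral_algebraMap_iff (algebraMap L K).injective).1 h2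
    have h3 : IsIntegral ℤ (ψ ((N : L) * (E₀ i j).coeff g)) := h1.map (ψ.restrictScalars ℤ)
    have h4 := norm_le_one_of_integral p h3
    rw [map_mul, map_natCast, norm_mul, hNp] at h4
    have h5 : (0 : ℝ) < (p : ℝ) ^ v := by positivity
    rw [inv_mul_le_iff₀ h5, mul_one] at h4
    exact h4
  have hk2 : (p : ℝ) ^ v * (p : ℝ) ^ v * ‖(p : PadicAlgCl p)‖ ^ (2 * v) ≤ 1 := by
    rw [norm_p_eq, ← pow_add, ← two_mul, ← mul_pow, mul_inv_cancel₀ hp0.ne', one_pow]
  have hz := padic_tr_zero p (idem_map ψ.toRingHom hE₀) hP hPb hk2 g π hgc hk hpc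
  rw [tr_map] at hz
  have hz2 : PG.tr (cls g) E₀ = 0 := by
    apply hψi
    rw [map_zero]
    exact hz
  rw [← hE₀E, tr_map, hz2, map_zero]

end Padic

end Pool.Agent.Y84.PC
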