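import Pool.Agent.Y84.PC.D

set_option autoImplicit false
set_option linter.unusedSectionVars false

/-! Elements whose centralisers have enough finite quotients, in a local form; the main theorem on
partial augmentations. -/

namespace Pool.Agent.Y84.PC

open Matrix
open Pool.Agent.Y84.PT (supp mem_supp LEF exists_coeff_finset exists_spec exists_common_denom)
open Pool.Agent.Y84.PG (T tr_apply tr_map idem_map exists_lift cls cls_inv LocInf locInf_of_lef
  push_idem T_mapDomain T_congr)

universe u v w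

/-- For every finite subset `W` of `G` and every `m ≠ 0` there are a map `f` from `G` to a group `H` with
`f (x y) = f x f y` for `x, y ∈ W`, and a homomorphism `π` from the centraliser of `f(g)` in `H` to a
finite group with `π(f(g)) ^ m ≠ 1`. -/
def LocCen {G : Type u} [Group G] (g : G) : Prop :=
  ∀ (W : Finset G) (m : ℕ), m ≠ 0 → ∃ (H : Type u) (_ : Group H) (f : G → H) (Q : Type u)
    (_ : Group Q) (_ : Finite Q) (π : Subgroup.centralizer ({f g} : Set H) →* Q),
    (∀ x ∈ W, ∀ y ∈ W, f (x * y) = f x * f y) ∧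
      π ⟨f g, Subgroup.mem_centralizer_singleton_iff.2 rfl⟩ ^ m ≠ 1

section

variable {G : Type u} [Group G]

theorem locCen_of_locInf {g : G} (h : LocInf g) : LocCen g := by
  intro W m hm
  obtain ⟨Q, i1, i2, f, hf, hne⟩ := h W m hm
  exact ⟨Q, i1, f, Q, i1, i2, Subgroup.subtype _, hf, hne⟩

/-- residually finite at the powers of the element -/
theorem locCen_of_centralizer {g : G}
    (h : ∀ m : ℕ, m ≠ 0 → ∃ N : Subgroup (Subgroup.centralizer ({g} : Set G)), N.Normal ∧
      N.FiniteIndex ∧ (⟨g, Subgroup.mem_centralizer_singleton_iff.2 rfl⟩ :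
        Subgroup.centralizer ({g} : Set G)) ^ m ∉ N) : LocCen g := by
  intro W m hm
  obtain ⟨N, h1, h2, h3⟩ := h m hm
  refine ⟨G, inferInstance, id, Subgroup.centralizer ({g} : Set G) ⧸ N, inferInstance,
    Subgroup.finite_quotient_of_finiteIndex, QuotientGroup.mk' N, fun x _ y _ => rfl, ?_⟩
  intro h4
  apply h3
  rw [← QuotientGroup.eq_one_iff]
  exact h4

end

section Push

variable {G : Type u} [Group G] {K : Type v} [Field K] [CharZero K]
variable {κ : Type w} [Fintype κ] [DecidableEq κ]

/-- bounded denominators -/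
theorem tr_zero_local_integral {E : Matrix κ κ (MonoidAlgebra K G)} (hE : E * E = E) {N : ℕ}
    (hN : N ≠ 0) (hint : ∀ i j g, IsIntegral ℤ ((N : K) * (E i j).coeff g)) {g : G}
    (hg : ∀ W : Finset G, ∃ (H : Type u) (_ : Group H) (f : G → H) (Q : Type u)
      (_ : Group Q) (_ : Finite Q) (π : Subgroup.centralizer ({f g} : Set H) →* Q),
      (∀ x ∈ W, ∀ y ∈ W, f (x * y) = f x * f y) ∧
        π ⟨f g, Subgroup.mem_centralizer_singleton_iff.2 rfl⟩ ^ (N ^ 2) ≠ 1) :
    PG.tr (cls g) E = 0 := by
  classical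
  have hc : ∀ h : G, ∃ c : G, IsConj g h → c * g * c⁻¹ = h := by
    intro h
    by_cases hh : IsConj g h
    · obtain ⟨c, hc⟩ := isConj_iff.1 hh
      exact ⟨c, fun _ => hc⟩
    · exact ⟨1, fun h' => absurd h' hh⟩
  choose c hc using hc
  obtain ⟨H, i1, f, Q, i2, i3, π, hmul, hne⟩ := hg (insert g (supp E ∪ (supp E).image c))
  have hW1 : ∀ h ∈ supp E, h ∈ insert g (supp E ∪ (supp E).image c) := fun h hh =>
    Finset.mem_insert_of_mem (Finset.mem_union_left _ hh)
  have hW2 : ∀ h ∈ supp E, c h ∈ insert g (supp E ∪ (supp E).image c) := fun h hh =>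
    Finset.mem_insert_of_mem (Finset.mem_union_right _ (Finset.mem_image_of_mem _ hh))
  have hW3 : g ∈ insert g (supp E ∪ (supp E).image c) := Finset.mem_insert_self _ _
  let F : G → H × G := fun h => (f h, h)
  have hF : Function.Injective F := fun a b hab => (Prod.mk.inj hab).2
  have hidem : E.map (MonoidAlgebra.mapDomain F) * E.map (MonoidAlgebra.mapDomain F) =
      E.map (MonoidAlgebra.mapDomain F) := by
    apply push_idem hE
    intro x hx y hy
    exact Prod.ext (hmul x (hW1 x hx) y (hW1 y hy)) rfl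
  have hint' : ∀ i j z, IsIntegral ℤ ((N : K) *
      ((E.map (MonoidAlgebra.mapDomain F)) i j).coeff z) := by
    intro i j z
    change IsIntegral ℤ ((N : K) * (Finsupp.mapDomain F (E i j).coeff) z)
    by_cases hz : z ∈ Set.range F
    · obtain ⟨h, rfl⟩ := hz
      rw [Finsupp.mapDomain_apply hF]
      exact hint i j h
    · rw [Finsupp.mapDomain_of_notMem_range _ _ hz, mul_zero]
      exact isIntegral_zero
  have hcen : ∀ z : Subgroup.centralizer ({((f g, g) : H × G)} : Set (H × G)),
      (z : H × G).1 ∈ Subgroup.centralizer ({f g} : Set H) := by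
    intro z
    rw [Subgroup.mem_centralizer_singleton_iff]
    exact congrArg Prod.fst (Subgroup.mem_centralizer_singleton_iff.1 z.2)
  let pr : Subgroup.centralizer ({((f g, g) : H × G)} : Set (H × G)) →*
      Subgroup.centralizer ({f g} : Set H) :=
    { toFun := fun z => ⟨(z : H × G).1, hcen z⟩
      map_one' := rfl
      map_mul' := fun _ _ => rfl }
  have h1 := tr_zero_of_integral hidem hN hint' (f g, g) (π.comp pr) rfl hne
  rw [← h1, tr_apply, tr_apply]
  refine Finset.sum_congr rfl (fun i _ => ?_)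
  rw [Matrix.map_apply, T_mapDomain]
  apply T_congr
  intro h hh
  have hsupp : h ∈ supp E := mem_supp hh
  constructor
  · intro h2
    have h3 := hc h h2
    have h4 : h * c h = c h * g := (mul_inv_eq_iff_eq_mul.1 h3).symm
    have h5 : f h * f (c h) = f (c h) * f g := by
      rw [← hmul h (hW1 h hsupp) (c h) (hW2 h hsupp), h4,
        hmul (c h) (hW2 h hsupp) g hW3]
    change IsConj (f g, g) (f h, h)
    refine isConj_iff.2 ⟨(f (c h), c h), Prod.ext ?_ h3⟩
    change f (c h) * f g * (f (c h))⁻¹ = f h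
    rw [← h5]; group
  · intro h2
    obtain ⟨⟨a, b⟩, h3⟩ := isConj_iff.1 h2
    exact isConj_iff.2 ⟨b, congrArg Prod.snd h3⟩

/-- fields of characteristic zero -/
theorem tr_zero_local {E : Matrix κ κ (MonoidAlgebra K G)} (hE : E * E = E) {g : G}
    (hg : LocCen g) : PG.tr (cls g) E = 0 := by
  classical
  by_contra hx
  set x : K := PG.tr (cls g) E with hxdef
  obtain ⟨U, hU⟩ := exists_coeff_finset E
  obtain ⟨R, hUR, ⟨ψ⟩⟩ := exists_spec (K := K) (AlgebraicClosure ℚ)
    ((insert x⁻¹ U : Finset K) : Set K) (Finset.finite_toSet _)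
  have hmem : ∀ i j g, (E i j).coeff g ∈ R := by
    intro i j g
    exact hUR (by exact_mod_cast Finset.mem_insert_of_mem (hU i j g))
  have hxinv : x⁻¹ ∈ R := hUR (by exact_mod_cast Finset.mem_insert_self _ _)
  have halg : Algebra.IsAlgebraic ℚ (AlgebraicClosure ℚ) := AlgebraicClosure.isAlgebraic ℚ
  obtain ⟨E₀, hE₀, hE₀E⟩ := exists_lift (algebraMap R K) Subtype.val_injective hE
    (fun i j g => ⟨⟨_, hmem i j g⟩, rfl⟩)
  have hE₁ := idem_map ψ hE₀
  set E₁ := E₀.map (MonoidAlgebra.mapRingHom G ψ) with hE₁def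
  obtain ⟨U₁, hU₁⟩ := exists_coeff_finset E₁
  obtain ⟨N, hN, hNint⟩ := exists_common_denom (L := AlgebraicClosure ℚ) U₁
  have h0 : PG.tr (cls g) E₁ = 0 :=
    tr_zero_local_integral hE₁ hN (fun i j h => hNint _ (hU₁ i j h))
      (fun W => hg W (N ^ 2) (pow_ne_zero _ hN))
  rw [hE₁def, tr_map] at h0
  have h1 : algebraMap R K (PG.tr (cls g) E₀) = x := by
    rw [← tr_map, hE₀E]
  have h2 : PG.tr (cls g) E₀ * ⟨x⁻¹, hxinv⟩ = 1 := by
    apply Subtype.val_injective
    change algebraMap R K (PG.tr (cls g) E₀) * x⁻¹ = 1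
    rw [h1]
    exact mul_inv_cancel₀ hx
  have h3 := congrArg ψ h2
  rw [map_mul, h0, zero_mul, map_one] at h3
  exact zero_ne_one h3

end Push

section Domain

variable {G : Type u} [Group G] {R : Type v} [CommRing R] [IsDomain R] [CharZero R]
variable {κ : Type w} [Fintype κ] [DecidableEq κ]

/-- domains of characteristic zero -/
theorem tr_zero_domain {E : Matrix κ κ (MonoidAlgebra R G)} (hE : E * E = E) {g : G}
    (hg : LocCen g) : PG.tr (cls g) E = 0 := by
  have hK : CharZero (FractionRing R) :=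
    charZero_of_injective_algebraMap (IsFractionRing.injective R (FractionRing R))
  have h1 := tr_zero_local (idem_map (algebraMap R (FractionRing R)) hE) hg
  rw [tr_map] at h1
  exact (IsFractionRing.injective R (FractionRing R)) (by rw [h1, map_zero])

end Domain

end Pool.Agent.Y84.PC
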