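import Pool.Agent.Y84.PC.F
import Pool.Agent.Y84.PG.H
import Pool.Agent.H26R2.Kap2.Main

set_option autoImplicit false
set_option linter.unusedSectionVars false

/-! The Bass trace conjecture over domains of characteristic zero and the detection of idempotents,
for groups whose centralisers have enough finite quotients. -/

namespace Pool.Agent.Y84.PC

open Pool.Agent.H26R2.Bass (tau tau_eq ind tf_zero_of_finite tf_zero_of_good exists_local Good)
open Pool.Agent.H23R2.Cyc (tf tf_apply)
open Pool.Agent.Y84.PG (tau_eq_tr tau_zero_of_finite cls)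
open Pool.Agent.H26R2.IdemLI (Det U cind det_local det_bot kaplansky)
open Pool.Agent.H26R2.Bass (U_eq_ell)
open Pool.Agent.H40R2.Zd (fs)

universe u v w

section

variable {G : Type u} [Group G] {R : Type v} [CommRing R] {n : ℕ}

variable [IsDomain R] [CharZero R]

theorem tau_zero_of_locCen (A : Matrix (Fin n) (Fin n) (MonoidAlgebra R G)) (hA : A * A = A)
    {g : G} (hg : LocCen g) : tau A g = 0 := by
  rw [tau_eq_tr]
  exact tr_zero_domain hA hg

/-- effective version -/
theorem tau_zero_of_integral {K : Type v} [Field K] [CharZero K]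
    (A : Matrix (Fin n) (Fin n) (MonoidAlgebra K G)) (hA : A * A = A) {N : ℕ}
    (hN : N ≠ 0) (hint : ∀ i j g, IsIntegral ℤ ((N : K) * (A i j).coeff g))
    {Q : Type w} [Group Q] [Finite Q] {g : G} (π : Subgroup.centralizer ({g} : Set G) →* Q)
    (hc : π ⟨g, Subgroup.mem_centralizer_singleton_iff.2 rfl⟩ ^ (N ^ 2) ≠ 1) : tau A g = 0 := by
  rw [tau_eq_tr]
  exact tr_zero_of_integral hA hN hint g π rfl hc

/-- the criterion for the Bass trace conjecture -/
theorem bass_local
    (hG : ∀ H : Subgroup G, H.FG → ∀ h : H, ¬ IsOfFinOrder h → LocCen h ∨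
      ∃ (M : Subgroup H) (_ : M.Normal), Good R (QuotientGroup.mk' M h))
    (A : Matrix (Fin n) (Fin n) (MonoidAlgebra R G)) (hA : A * A = A)
    (g : G) (hg : ¬ IsUnit ((orderOf g : ℕ) : R)) : tau A g = 0 := by
  by_cases hfin : IsOfFinOrder g
  · exact tau_zero_of_finite A hA hfin hg
  · by_contra hne
    rw [tau_eq] at hne
    obtain ⟨H, hH, B, hB, h, hconj, hne'⟩ := exists_local A hA g hne
    apply hne'
    have hinf : ¬ IsOfFinOrder h := by
      intro hh
      apply hfin
      obtain ⟨c, hc⟩ := isConj_iff.1 hconj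
      have h2 : IsOfFinOrder (h : G) := (Submonoid.isOfFinOrder_coe).2 hh
      rw [← hc]
      exact (MulAut.conj c).toMonoidHom.isOfFinOrder h2
    rcases hG H hH h hinf with h1 | ⟨M, hM, h1⟩
    · rw [← tau_eq]
      exact tau_zero_of_locCen B hB h1
    · exact tf_zero_of_good B hB h (Pool.Agent.H26R2.Bass.good_of_hom (QuotientGroup.mk' M) h h1)

end

section

variable {K : Type u} [Field K] [CharZero K] {G : Type v} [Group G]

/-- Idempotent matrices over `K[G]` which vanish over `K[G/N]` vanish, if all elements `≠ 1` of `N` are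
good or have centralisers with enough finite quotients, in all finitely generated subgroups. -/
theorem det_of_locCen (N : Subgroup G) [N.Normal]
    (h : ∀ H : Subgroup G, H.FG → ∀ x : H, (x : G) ∈ N → x ≠ 1 → LocCen x ∨ Good K x) :
    Det K N := by
  apply det_local
  intro H hH n E hE h0
  refine det_bot (K := K) (G := H) n E hE
    (Pool.Agent.H26R2.Kap2.zero_of_vanish E hE ⊥ (N.subgroupOf H) bot_le (fun g hg hgM => ?_) h0)
  rw [U_eq_ell, map_sum, ← tf_apply]
  have hg1 : g ≠ 1 := fun h' => hgM (Subgroup.mem_bot.2 h')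
  rcases h H hH g (Subgroup.mem_subgroupOf.1 hg) hg1 with h1 | h1
  · have h2 := tau_zero_of_locCen E hE h1
    rw [tau_eq] at h2
    exact h2
  · exact tf_zero_of_good E hE g h1

end

end Pool.Agent.Y84.PC
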