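import Pool.Agent.Y84.PC.C

set_option autoImplicit false
set_option linter.unusedSectionVars false

/-! The skew group ring of the ring of functions on a group, on which the group acts by conjugation,
and its trace. -/

namespace Pool.Agent.Y84.PC

open Polynomial
open Pool.Agent.Y84.PT (Bd bd_zero bd_one bd_C)

/-- functions on the group -/
def Fn (G : Type*) (R : Type*) := G → R

section Basic

variable {G : Type*} [Group G] {R : Type*} [CommRing R]

instance : CommRing (Fn G R) := inferInstanceAs (CommRing (G → R))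

instance : Algebra R (Fn G R) := inferInstanceAs (Algebra R (G → R))

instance : MulSemiringAction G (Fn G R) where
  smul a ψ := fun p => ψ (a⁻¹ * p * a)
  one_smul ψ := by
    funext p
    change ψ (1⁻¹ * p * 1) = ψ p
    simp
  mul_smul a b ψ := by
    funext p
    change ψ ((a * b)⁻¹ * p * (a * b)) = ψ (b⁻¹ * (a⁻¹ * p * a) * b)
    congr 1
    group
  smul_zero a := rfl
  smul_add a φ ψ := rfl
  smul_one a := rfl
  smul_mul a φ ψ := rfl

theorem smul_fn (a : G) (ψ : Fn G R) (p : G) : (a • ψ) p = ψ (a⁻¹ * p * a) := rfl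

instance : SMulCommClass G R (Fn G R) where
  smul_comm a r ψ := rfl

/-- evaluation at a point -/
def evp (p : G) : Fn G R →+* R := Pi.evalRingHom (fun _ : G => R) p

theorem evp_apply (p : G) (ψ : Fn G R) : evp p ψ = ψ p := rfl

end Basic

/-- the skew group ring -/
abbrev Sk (G : Type*) (R : Type*) [Group G] [CommRing R] := SkewMonoidAlgebra (Fn G R) G

section MapU

variable {G : Type*} [Group G] {R R' : Type*} [CommRing R] [CommRing R']

/-- composition with an additive map -/
def fnMap (f : R →+ R') : Fn G R →+ Fn G R' where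
  toFun ψ := fun p => f (ψ p)
  map_zero' := by funext p; exact map_zero f
  map_add' φ ψ := by funext p; exact map_add f _ _

theorem fnMap_apply (f : R →+ R') (ψ : Fn G R) (p : G) : fnMap f ψ p = f (ψ p) := rfl

/-- composition of the coefficients with an additive map -/
noncomputable def mapU (f : R →+ R') : Sk G R →+ Sk G R' :=
  (SkewMonoidAlgebra.coeffAddEquiv (k := Fn G R') (G := G)).symm.toAddMonoidHom.comp
    ((Finsupp.mapRange.addMonoidHom (fnMap f)).comp
      (SkewMonoidAlgebra.coeffAddEquiv (k := Fn G R) (G := G)).toAddMonoidHom)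

theorem mapU_coeff (f : R →+ R') (x : Sk G R) (h p : G) :
    (mapU f x).coeff h p = f (x.coeff h p) := rfl

theorem mapU_single (f : R →+ R') (h : G) (ψ : Fn G R) :
    mapU f (SkewMonoidAlgebra.single h ψ) = SkewMonoidAlgebra.single h (fnMap f ψ) := by
  change SkewMonoidAlgebra.ofCoeff (Finsupp.mapRange (fnMap f) (map_zero _)
    (Finsupp.single h ψ)) = _
  rw [Finsupp.mapRange_single]
  rfl

theorem mapU_mul (f : R →+* R') (x y : Sk G R) :
    mapU (f : R →+ R') (x * y) = mapU (f : R →+ R') x * mapU (f : R →+ R') y := by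
  induction x using SkewMonoidAlgebra.induction_on' with
  | add x₁ x₂ h₁ h₂ => rw [add_mul, map_add, map_add, add_mul, h₁, h₂]
  | single a φ =>
    induction y using SkewMonoidAlgebra.induction_on' with
    | add y₁ y₂ h₁ h₂ => rw [mul_add, map_add, map_add, mul_add, h₁, h₂]
    | single b ψ =>
      rw [SkewMonoidAlgebra.single_mul_single, mapU_single, mapU_single, mapU_single,
        SkewMonoidAlgebra.single_mul_single]
      congr 1
      funext p
      exact map_mul f _ _

/-- composition of the coefficients with a ring homomorphism -/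
noncomputable def mapUR (f : R →+* R') : Sk G R →+* Sk G R' where
  toFun := mapU (f : R →+ R')
  map_zero' := map_zero _
  map_add' := map_add _
  map_one' := by
    rw [SkewMonoidAlgebra.one_def, mapU_single, SkewMonoidAlgebra.one_def]
    congr 1
    funext p
    exact map_one f
  map_mul' := mapU_mul f

theorem mapUR_coeff (f : R →+* R') (x : Sk G R) (h p : G) :
    (mapUR f x).coeff h p = f (x.coeff h p) := rfl

/-- coefficientwise derivative -/
noncomputable def dU : Sk G R[X] →+ Sk G R[X] :=
  mapU (Polynomial.derivative (R := R)).toAddMonoidHom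

theorem dU_single (h : G) (ψ : Fn G R[X]) :
    dU (SkewMonoidAlgebra.single h ψ) = SkewMonoidAlgebra.single h
      (fnMap (Polynomial.derivative (R := R)).toAddMonoidHom ψ) := mapU_single _ _ _

theorem dU_mul (x y : Sk G R[X]) : dU (x * y) = dU x * y + x * dU y := by
  induction x using SkewMonoidAlgebra.induction_on' with
  | add x₁ x₂ h₁ h₂ => rw [add_mul, map_add, map_add, h₁, h₂]; noncomm_ring
  | single a φ =>
    induction y using SkewMonoidAlgebra.induction_on' with
    | add y₁ y₂ h₁ h₂ => rw [mul_add, map_add, map_add, h₁, h₂]; noncomm_ring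
    | single b ψ =>
      rw [SkewMonoidAlgebra.single_mul_single, dU_single, dU_single, dU_single,
        SkewMonoidAlgebra.single_mul_single, SkewMonoidAlgebra.single_mul_single,
        ← SkewMonoidAlgebra.single_add]
      congr 1
      funext p
      exact Polynomial.derivative_mul

theorem sk_add (x y : Sk G R) (a p : G) : (x + y).coeff a p = x.coeff a p + y.coeff a p := by
  rw [SkewMonoidAlgebra.coeff_add]
  rfl

theorem sk_sub (x y : Sk G R) (a p : G) : (x - y).coeff a p = x.coeff a p - y.coeff a p := by
  rw [SkewMonoidAlgebra.coeff_sub]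
  rfl

theorem sk_smul (r : R) (x : Sk G R) (a p : G) : (r • x).coeff a p = r * x.coeff a p := by
  rw [SkewMonoidAlgebra.coeff_smul]
  rfl

theorem sk_ext {x y : Sk G R} (h : ∀ a p, x.coeff a p = y.coeff a p) : x = y :=
  SkewMonoidAlgebra.ext (fun a => funext (h a))

end MapU

section Trace

variable {G : Type*} [Group G] {R : Type*} [CommRing R]

open Classical in
/-- the trace belonging to a set closed under conjugation -/
noncomputable def TU (S : Set G) : Sk G R →+ R :=
  (Finsupp.liftAddHom (fun h => if h ∈ S then ((evp h : Fn G R →+* R) : Fn G R →+ R) else 0)).comp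
    (SkewMonoidAlgebra.coeffAddEquiv (k := Fn G R) (G := G)).toAddMonoidHom

open Classical in
theorem TU_apply (S : Set G) (x : Sk G R) :
    TU S x = ∑ h ∈ x.coeff.support, if h ∈ S then x.coeff h h else 0 := by
  change Finsupp.sum x.coeff (fun h ψ => (if h ∈ S then ((evp h : Fn G R →+* R) : Fn G R →+ R) else 0) ψ) = _
  unfold Finsupp.sum
  refine Finset.sum_congr rfl (fun g _ => ?_)
  by_cases h : g ∈ S
  · simp only [if_pos h]; rfl
  · simp only [if_neg h]; rfl

open Classical in
theorem TU_single (S : Set G) (h : G) (ψ : Fn G R) :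
    TU S (SkewMonoidAlgebra.single h ψ) = if h ∈ S then ψ h else 0 := by
  change Finsupp.sum (Finsupp.single h ψ)
    (fun h ψ => (if h ∈ S then ((evp h : Fn G R →+* R) : Fn G R →+ R) else 0) ψ) = _
  rw [Finsupp.sum_single_index]
  · split_ifs <;> rfl
  · exact map_zero _

theorem TU_comm {S : Set G} (hS : PG.Inv S) (x y : Sk G R) : TU S (x * y) = TU S (y * x) := by
  classical
  induction x using SkewMonoidAlgebra.induction_on' with
  | add x₁ x₂ h₁ h₂ => rw [add_mul, mul_add, map_add, map_add, h₁, h₂]
  | single a φ =>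
    induction y using SkewMonoidAlgebra.induction_on' with
    | add y₁ y₂ h₁ h₂ => rw [mul_add, add_mul, map_add, map_add, h₁, h₂]
    | single b ψ =>
      rw [SkewMonoidAlgebra.single_mul_single, SkewMonoidAlgebra.single_mul_single, TU_single,
        TU_single]
      by_cases h : a * b ∈ S
      · rw [if_pos h, if_pos (hS a b h)]
        change φ (a * b) * ψ (a⁻¹ * (a * b) * a) = ψ (b * a) * φ (b⁻¹ * (b * a) * b)
        rw [show a⁻¹ * (a * b) * a = b * a by group, show b⁻¹ * (b * a) * b = a * b by group,
          mul_comm]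
      · rw [if_neg h, if_neg (fun h' => h (hS b a h'))]

theorem TU_map {R' : Type*} [CommRing R'] (S : Set G) (f : R →+ R') (x : Sk G R) :
    TU S (mapU f x) = f (TU S x) := by
  classical
  induction x using SkewMonoidAlgebra.induction_on' with
  | add x₁ x₂ h₁ h₂ => rw [map_add, map_add, map_add, map_add, h₁, h₂]
  | single a φ =>
    rw [mapU_single, TU_single, TU_single]
    split_ifs
    · rfl
    · rw [map_zero]

theorem TU_smul (S : Set G) (r : R) (x : Sk G R) : TU S (r • x) = r * TU S x := by
  classical
  induction x using SkewMonoidAlgebra.induction_on' with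
  | add x₁ x₂ h₁ h₂ => rw [smul_add, map_add, map_add, h₁, h₂, mul_add]
  | single a φ =>
    rw [SkewMonoidAlgebra.smul_single, TU_single, TU_single]
    split_ifs
    · rfl
    · rw [mul_zero]

end Trace

section Bound

variable {F : Type*} [NormedField F] [IsUltrametricDist F] {G : Type*} [Group G]

/-- all coefficients of all values of all coefficients have norm at most `P` -/
def UBd (x : Sk G F[X]) (P : ℝ) : Prop := ∀ h p, Bd (x.coeff h p) P

theorem ubd_mono {x : Sk G F[X]} {A B : ℝ} (h : UBd x A) (hAB : A ≤ B) : UBd x B :=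
  fun g p => (h g p).mono hAB

theorem ubd_zero {B : ℝ} (hB : 0 ≤ B) : UBd (0 : Sk G F[X]) B := fun _ _ => bd_zero hB

theorem ubd_add {x y : Sk G F[X]} {B : ℝ} (hx : UBd x B) (hy : UBd y B) :
    UBd (x + y) B := fun g p => by
  rw [sk_add]
  exact (hx g p).add (hy g p)

theorem ubd_sub {x y : Sk G F[X]} {B : ℝ} (hx : UBd x B) (hy : UBd y B) :
    UBd (x - y) B := fun g p => by
  rw [sk_sub]
  exact (hx g p).sub (hy g p)

theorem coeff_mul_apply {R : Type*} [CommRing R] [DecidableEq G] (x y : Sk G R) (g p : G) :
    (x * y).coeff g p = ∑ a ∈ x.coeff.support, ∑ b ∈ y.coeff.support,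
      if a * b = g then x.coeff a p * y.coeff b (a⁻¹ * p * a) else 0 := by
  have h0 : (x * y).coeff g = ∑ a ∈ x.coeff.support, ∑ b ∈ y.coeff.support,
      if a * b = g then x.coeff a * a • y.coeff b else 0 := SkewMonoidAlgebra.coeff_mul x y g
  change evp p ((x * y).coeff g) = _
  rw [h0, map_sum]
  refine Finset.sum_congr rfl (fun a _ => ?_)
  rw [map_sum]
  refine Finset.sum_congr rfl (fun b _ => ?_)
  split_ifs
  · rfl
  · rfl

theorem ubd_mul {x y : Sk G F[X]} {A B : ℝ} (hx : UBd x A) (hy : UBd y B)
    (hA : 0 ≤ A) (hB : 0 ≤ B) : UBd (x * y) (A * B) := by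
  classical
  intro g p
  rw [coeff_mul_apply]
  apply Bd.sum (mul_nonneg hA hB)
  intro a _
  apply Bd.sum (mul_nonneg hA hB)
  intro b _
  split_ifs
  · exact (hx a p).mul (hy b _)
  · exact bd_zero (mul_nonneg hA hB)

theorem ubd_one : UBd (1 : Sk G F[X]) 1 := by
  classical
  intro h p
  rw [SkewMonoidAlgebra.coeff_one, Finsupp.single_apply]
  split_ifs
  · exact bd_one
  · exact bd_zero zero_le_one

theorem ubd_smul {x : Sk G F[X]} {f : F[X]} {A B : ℝ} (hf : Bd f A) (hx : UBd x B) :
    UBd (f • x) (A * B) := by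
  intro g p
  exact hf.mul (hx g p)

theorem ubd_dU {x : Sk G F[X]} {B : ℝ} (hx : UBd x B) : UBd (dU x) B := by
  intro g p
  exact (hx g p).derivative

theorem ubd_T {S : Set G} {x : Sk G F[X]} {B : ℝ} (hx : UBd x B) (hB : 0 ≤ B) :
    Bd (TU S x) B := by
  classical
  rw [TU_apply]
  apply Bd.sum hB
  intro g _
  split_ifs
  · exact hx g g
  · exact bd_zero hB

/-- all values of all coefficients have degree at most `d` -/
def UDg (x : Sk G F[X]) (d : ℕ) : Prop := ∀ h p, (x.coeff h p).natDegree ≤ d

theorem udg_mul {x y : Sk G F[X]} {a b : ℕ} (hx : UDg x a) (hy : UDg y b) :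
    UDg (x * y) (a + b) := by
  classical
  intro g p
  rw [coeff_mul_apply]
  apply natDegree_sum_le_of_forall_le
  intro u _
  apply natDegree_sum_le_of_forall_le
  intro v _
  split_ifs
  · exact natDegree_mul_le.trans (Nat.add_le_add (hx u p) (hy v _))
  · simp

theorem udg_one : UDg (1 : Sk G F[X]) 0 := by
  classical
  intro h p
  rw [SkewMonoidAlgebra.coeff_one, Finsupp.single_apply]
  split_ifs
  · exact (natDegree_one (R := F)).le
  · exact (natDegree_zero (R := F)).le

theorem udg_T {S : Set G} {x : Sk G F[X]} {d : ℕ} (hx : UDg x d) : (TU S x).natDegree ≤ d := by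
  classical
  rw [TU_apply]
  apply natDegree_sum_le_of_forall_le
  intro g _
  split_ifs
  · exact hx g g
  · simp

/-- the data for the skew group ring -/
noncomputable def fam {S : Set G} (hS : PG.Inv S) : FamData F (Sk G F) (Sk G F[X]) where
  NU x P := ∀ h p, ‖x.coeff h p‖ ≤ P
  NB := UBd
  ND := UDg
  D := dU
  T := TU S
  T₀ := TU S
  ev w := mapUR (evalRingHom w)
  cc := mapUR C
  nb_mono := ubd_mono
  nb_zero := ubd_zero
  nb_one := ubd_one
  nb_add := ubd_add
  nb_sub := ubd_sub
  nb_mul := ubd_mul
  nb_smul := ubd_smul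
  nb_D := ubd_dU
  nb_T := ubd_T
  nb_cc := fun h g p => bd_C (h g p)
  nd_mono := fun h hd g p => (h g p).trans hd
  nd_zero := fun _ _ => (natDegree_zero (R := F)).le
  nd_one := udg_one
  nd_add := fun h h' g p => by
    rw [sk_add]
    exact (natDegree_add_le _ _).trans (max_le (h g p) (h' g p))
  nd_sub := fun h h' g p => by
    rw [sk_sub]
    exact (natDegree_sub_le _ _).trans (max_le (h g p) (h' g p))
  nd_mul := udg_mul
  nd_smul := fun hf hx g p => natDegree_mul_le.trans (Nat.add_le_add hf (hx g p))
  nd_cc := fun _ _ _ => (natDegree_C _).le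
  nd_T := udg_T
  D_add := map_add _
  D_sub := map_sub _
  D_zero := map_zero _
  D_mul := dU_mul
  T_comm := TU_comm hS
  T_D := fun b => TU_map S (Polynomial.derivative (R := F)).toAddMonoidHom b
  ev_T := fun w b => TU_map S (evalRingHom w : F[X] →+ F) b
  ev_cc := fun w u => sk_ext (fun a p => eval_C)
  ev_smul := fun w f b => sk_ext (fun a p => eval_mul)
  T₀_smul := TU_smul S

end Bound

end Pool.Agent.Y84.PC
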